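import Mathlib

/-!
# Equivariant maps with equal fibres between finite cyclic sets
-/

set_option autoImplicit false

namespace Q248.FS

open Function

/-- There is an equivariant map all of whose fibres have `r` elements. -/
def EqMap {Y X : Type} (β : Y → Y) (α : X → X) (r : ℕ) : Prop :=
  ∃ h : Y → X, (∀ y, h (β y) = α (h y)) ∧ ∀ x, Nat.card {y // h y = x} = r

lemma self_inv {X : Type} (α : Equiv.Perm X) (x : X) : α (α⁻¹ x) = x := by simp

lemma inv_self {X : Type} (α : Equiv.Perm X) (x : X) : α⁻¹ (α x) = x := by simp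

section cyc

variable {X Y A B : Type} [Finite X] [Finite Y] [Finite B]
  (α : Equiv.Perm X) (β : Equiv.Perm Y) (πX : X → A) (πY : Y → B)

/-- `π` is the projection to the set of orbits of `α`. -/
structure IsOrb {X A : Type} (α : Equiv.Perm X) (π : X → A) : Prop where
  surj : Surjective π
  inv : ∀ x, π (α x) = π x
  trans : ∀ x x', π x = π x' → ∃ i : ℤ, x' = (α ^ i) x

variable {α β πX πY}

lemma IsOrb.inv_zpow {X A : Type} {α : Equiv.Perm X} {π : X → A} (h : IsOrb α π) (x : X) (i : ℤ) :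
    π ((α ^ i) x) = π x := by
  induction i using Int.induction_on with
  | zero => simp
  | succ n ih =>
    rw [add_comm, zpow_add, zpow_one, Equiv.Perm.mul_apply, h.inv, ih]
  | pred n ih =>
    rw [sub_eq_add_neg, add_comm, zpow_add, zpow_neg, zpow_one, Equiv.Perm.mul_apply, ← h.inv,
      self_inv, ih]

/-- the number of points of `Y` in the orbit `b` over the point `x` -/
noncomputable def N (h : Y → X) (πY : Y → B) (b : B) (x : X) : ℕ :=
  Nat.card {y // πY y = b ∧ h y = x}

omit [Finite X] [Finite Y] [Finite B] in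
lemma N_succ (hY : IsOrb β πY) (h : Y → X) (he : ∀ y, h (β y) = α (h y)) (b : B) (x : X) :
    N h πY b (α x) = N h πY b x := by
  unfold N
  symm
  refine Nat.card_congr (β.subtypeEquiv fun y => ?_)
  rw [hY.inv, he]
  simp

omit [Finite X] [Finite Y] [Finite B] in
lemma N_const (hY : IsOrb β πY) (hX : IsOrb α πX) (h : Y → X) (he : ∀ y, h (β y) = α (h y))
    (b : B) (x x' : X) (hxx : πX x = πX x') : N h πY b x' = N h πY b x := by
  obtain ⟨i, rfl⟩ := hX.trans x x' hxx
  clear hxx
  induction i using Int.induction_on with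
  | zero => simp
  | succ n ih =>
    rw [add_comm, zpow_add, zpow_one, Equiv.Perm.mul_apply, N_succ hY h he, ih]
  | pred n ih =>
    rw [sub_eq_add_neg, add_comm, zpow_add, zpow_neg, zpow_one, Equiv.Perm.mul_apply,
      ← N_succ hY h he, self_inv, ih]

omit [Finite B] in
lemma card_fib (hY : IsOrb β πY) (hX : IsOrb α πX) (h : Y → X) (he : ∀ y, h (β y) = α (h y))
    (b : B) (x : X) (hb : ∀ y, πY y = b → πX (h y) = πX x) :
    Nat.card {y // πY y = b} = Nat.card {x' // πX x' = πX x} * N h πY b x := by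
  classical
  have := Fintype.ofFinite X
  have := Fintype.ofFinite Y
  have h1 : Nat.card {y // πY y = b} =
      ∑ x' : {x' // πX x' = πX x}, Nat.card {y // πY y = b ∧ h y = x'} := by
    rw [← Nat.card_sigma]
    refine Nat.card_congr ⟨fun y => ⟨⟨h y.1, hb y.1 y.2⟩, ⟨y.1, y.2, rfl⟩⟩,
      fun z => ⟨z.2.1, z.2.2.1⟩, fun y => rfl, ?_⟩
    rintro ⟨⟨x', hx'⟩, ⟨y, hy1, hy2⟩⟩
    simp only at hy2
    subst hy2
    rfl
  rw [h1]
  have h2 : ∀ x' : {x' // πX x' = πX x}, Nat.card {y // πY y = b ∧ h y = x'} = N h πY b x :=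
    fun x' => N_const hY hX h he b x x'.1 x'.2.symm
  rw [Finset.sum_congr rfl fun x' _ => h2 x', Finset.sum_const, Finset.card_univ, smul_eq_mul,
    Nat.card_eq_fintype_card]

omit [Finite X] in
lemma sum_N (h : Y → X) (x : X) :
    Nat.card {y // h y = x} = ∑ᶠ b : B, N h πY b x := by
  classical
  have := Fintype.ofFinite Y
  have := Fintype.ofFinite B
  rw [finsum_eq_sum_of_fintype]
  unfold N
  rw [← Nat.card_sigma]
  refine Nat.card_congr ⟨fun y => ⟨πY y.1, ⟨y.1, rfl, y.2⟩⟩, fun z => ⟨z.2.1, z.2.2.2⟩,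
    fun y => rfl, ?_⟩
  rintro ⟨b, ⟨y, hy1, hy2⟩⟩
  subst hy1
  rfl

/-- From an equal fibre equivariant map to the numerical data of the orbits. -/
theorem toPrimes (hY : IsOrb β πY) (hX : IsOrb α πX) {r : ℕ} (H : EqMap β α r) :
    ∃ (φ : B → A) (e : B → ℕ),
      (∀ b, 0 < e b ∧ Nat.card {y // πY y = b} = Nat.card {x // πX x = φ b} * e b) ∧
      ∀ a, ∑ᶠ (b : B) (_ : φ b = a), e b = r := by
  classical
  obtain ⟨h, he, hr⟩ := H
  have := Fintype.ofFinite B
  choose yb hyb using hY.surj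
  choose xa hxa using hX.surj
  have key : ∀ y, πX (h y) = πX (h (yb (πY y))) := by
    intro y
    obtain ⟨i, hi⟩ := hY.trans (yb (πY y)) y (hyb _)
    have h1 : ∀ (i : ℤ) (y : Y), πX (h ((β ^ i) y)) = πX (h y) := by
      intro i y
      have h2 : ∀ (i : ℤ), h ((β ^ i) y) = (α ^ i) (h y) := by
        intro i
        induction i using Int.induction_on with
        | zero => simp
        | succ n ih =>
          rw [add_comm, zpow_add, zpow_one, Equiv.Perm.mul_apply, he, ih, zpow_add, zpow_one,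
            Equiv.Perm.mul_apply]
        | pred n ih =>
          have h3 := he ((β ^ (-(n : ℤ) - 1)) y)
          rw [← Equiv.Perm.mul_apply, ← zpow_one_add] at h3
          rw [show (1 : ℤ) + (-(n : ℤ) - 1) = -(n : ℤ) by ring, ih] at h3
          have h4 : (α ^ (-(n : ℤ) - 1)) (h y) = α⁻¹ ((α ^ (-(n : ℤ))) (h y)) := by
            rw [← Equiv.Perm.mul_apply, ← zpow_neg_one, ← zpow_add]
            congr 2
            ring
          rw [h4, h3, inv_self]
      rw [h2, hX.inv_zpow]
    conv_lhs => rw [hi]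
    rw [h1]
  refine ⟨fun b => πX (h (yb b)), fun b => N h πY b (h (yb b)), ?_, ?_⟩
  · intro b
    have h1 := card_fib hY hX h he b (h (yb b)) (fun y hy => by rw [key y, hy])
    refine ⟨?_, h1⟩
    apply Nat.pos_of_ne_zero
    intro h0
    simp only at h0
    rw [h0, mul_zero, Nat.card_eq_zero] at h1
    rcases h1 with h1 | h1
    · exact h1.elim ⟨yb b, hyb b⟩
    · exact (not_infinite_iff_finite.mpr inferInstance) h1
  · intro a
    have h1 := sum_N (πY := πY) h (xa a)
    rw [hr] at h1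
    rw [h1]
    apply finsum_congr
    intro b
    by_cases hb : πX (h (yb b)) = a
    · rw [finsum_eq_if, if_pos hb]
      exact N_const hY hX h he b (xa a) (h (yb b)) (by rw [hxa, hb])
    · rw [finsum_eq_if, if_neg hb]
      symm
      unfold N
      rw [Nat.card_eq_zero]
      left
      constructor
      rintro ⟨y, hy1, hy2⟩
      apply hb
      rw [← hy1, ← key, hy2, hxa]

/-- From the numerical data of the orbits to an equal fibre equivariant map. -/
theorem ofPrimes (hY : IsOrb β πY) (hX : IsOrb α πX) {r : ℕ} (φ : B → A) (e : B → ℕ)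
    (h1 : ∀ b, Nat.card {y // πY y = b} = Nat.card {x // πX x = φ b} * e b)
    (h2 : ∀ a, ∑ᶠ (b : B) (_ : φ b = a), e b = r) : EqMap β α r := by
  classical
  have := Fintype.ofFinite B
  choose yb hyb using hY.surj
  choose xa hxa using hX.surj
  choose i hi using fun y => hY.trans (yb (πY y)) y (hyb _)
  have per : ∀ {Z C : Type} [Finite Z] (γ : Equiv.Perm Z) (π : Z → C) (hZ : IsOrb γ π) (z : Z)
      (n : ℤ), (γ ^ n) z = z ↔ (Nat.card {z' // π z' = π z} : ℤ) ∣ n := by
    intro Z C _ γ π hZ z n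
    have e1 : Nat.card {z' // π z' = π z} = minimalPeriod (γ • ·) z := by
      have : Fintype (MulAction.orbit (Subgroup.zpowers γ) z) := Fintype.ofFinite _
      rw [MulAction.minimalPeriod_eq_card, ← Nat.card_eq_fintype_card]
      refine Nat.card_congr (Equiv.subtypeEquivRight fun z' => ?_)
      constructor
      · intro hz
        obtain ⟨i, rfl⟩ := hZ.trans z z' hz.symm
        exact ⟨⟨γ ^ i, ⟨i, rfl⟩⟩, rfl⟩
      · rintro ⟨⟨g, ⟨i, rfl⟩⟩, rfl⟩
        exact hZ.inv_zpow z i
    rw [e1, ← MulAction.zpow_smul_eq_iff_minimalPeriod_dvd]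
    rfl
  have wd : ∀ (b : B) (n m : ℤ), (β ^ n) (yb b) = (β ^ m) (yb b) →
      (α ^ n) (xa (φ b)) = (α ^ m) (xa (φ b)) := by
    intro b n m h
    have h3 : (β ^ (n - m)) (yb b) = yb b := by
      rw [sub_eq_neg_add, zpow_add, Equiv.Perm.mul_apply, h, ← Equiv.Perm.mul_apply, ← zpow_add]
      simp
    rw [per β πY hY, hyb, h1] at h3
    have h4 : (α ^ (n - m)) (xa (φ b)) = xa (φ b) := by
      rw [per α πX hX, hxa]
      exact (Dvd.intro _ (by push_cast; rfl)).trans h3
    conv_rhs => rw [← h4]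
    rw [← Equiv.Perm.mul_apply, ← zpow_add]
    congr 2
    ring
  let h : Y → X := fun y => (α ^ i y) (xa (φ (πY y)))
  have hh : ∀ (b : B) (n : ℤ), h ((β ^ n) (yb b)) = (α ^ n) (xa (φ b)) := by
    intro b n
    have e1 : πY ((β ^ n) (yb b)) = b := by rw [hY.inv_zpow, hyb]
    have e2 := hi ((β ^ n) (yb b))
    show (α ^ i _) (xa (φ (πY _))) = _
    rw [e1]
    apply wd
    rw [e1] at e2
    exact e2.symm
  have he : ∀ y, h (β y) = α (h y) := by
    intro y
    have e1 : β y = (β ^ (1 + i y)) (yb (πY y)) := by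
      rw [zpow_add, zpow_one, Equiv.Perm.mul_apply, ← hi]
    rw [e1, hh, zpow_add, zpow_one, Equiv.Perm.mul_apply]
  refine ⟨h, he, fun x => ?_⟩
  rw [sum_N (πY := πY) h x, ← h2 (πX x)]
  apply finsum_congr
  intro b
  have hπ : ∀ y, πX (h y) = φ (πY y) := fun y => by
    show πX ((α ^ i y) (xa (φ (πY y)))) = _
    rw [hX.inv_zpow, hxa]
  by_cases hb : φ b = πX x
  · rw [finsum_eq_if, if_pos hb]
    have h3 := card_fib hY hX h he b x (fun y hy => by rw [hπ, hy, hb])
    rw [h1, hb] at h3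
    have h4 : 0 < Nat.card {x' // πX x' = πX x} :=
      Nat.card_pos_iff.mpr ⟨⟨⟨x, rfl⟩⟩, inferInstance⟩
    exact (Nat.eq_of_mul_eq_mul_left h4 h3).symm
  · rw [finsum_eq_if, if_neg hb]
    unfold N
    rw [Nat.card_eq_zero]
    left
    constructor
    rintro ⟨y, hy1, hy2⟩
    apply hb
    rw [← hy1, ← hπ, hy2]

end cyc

end Q248.FS
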