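import Mathlib

/-!
# Fake subfields of number fields: definitions

Number fields are finite extensions of `ℚ` inside a fixed algebraic closure `Qb` of `ℚ`.
-/

set_option autoImplicit false

namespace Q248.FS

open NumberField IntermediateField

/-- The fixed algebraic closure of `ℚ`. -/
abbrev Qb : Type := AlgebraicClosure ℚ

/-- The prime ideals of the ring of integers of `L` above the rational prime `p`. -/
abbrev Pr (L : Type) [Field L] [NumberField L] (p : ℕ) : Type :=
  (Ideal.span {(p : ℤ)}).primesOver (𝓞 L)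

/-- The rational prime `p` is unramified in `L`: all ramification indices over `p` are `1`. -/
def Unram (L : Type) [Field L] [NumberField L] (p : ℕ) : Prop :=
  ∀ P : Pr L p, P.1.ramificationIdx ℤ = 1

/-- `K₂` is *locally sub-`K₁`*.  Let `n = [K₁ : ℚ]` and `m = [K₂ : ℚ]`.  Then `m` divides `n`, and for
every rational prime `p` unramified in both fields the primes `P` of `K₁` above `p` can be
distributed over the primes `Q` of `K₂` above `p` (`P` is assigned to `φ P`) in such a way that the
residue degree of `P` is the product of the residue degree of `φ P` and a positive integer `e P`, and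
for every `Q` the numbers `e P` of the primes `P` assigned to `Q` have the sum `n / m`. -/
def LocallySub (K₂ K₁ : Type) [Field K₂] [NumberField K₂] [Field K₁] [NumberField K₁] : Prop :=
  Module.finrank ℚ K₂ ∣ Module.finrank ℚ K₁ ∧
  ∀ p : ℕ, p.Prime → Unram K₁ p → Unram K₂ p →
    ∃ (φ : Pr K₁ p → Pr K₂ p) (e : Pr K₁ p → ℕ),
      (∀ P, 0 < e P ∧ P.1.inertiaDeg ℤ = (φ P).1.inertiaDeg ℤ * e P) ∧
      ∀ Q, ∑ᶠ (P : Pr K₁ p) (_ : φ P = Q), e P = Module.finrank ℚ K₁ / Module.finrank ℚ K₂

/-- `K₂` is a *fake subfield* of `K₁`: it is locally sub-`K₁`, but it is contained in no conjugate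
`σ K₁`, `σ ∈ Gal(Qb/ℚ)`. -/
def FakeSubfield (K₂ K₁ : IntermediateField ℚ Qb) [NumberField K₂] [NumberField K₁] : Prop :=
  LocallySub K₂ K₁ ∧ ∀ σ : Gal(Qb/ℚ), ¬ K₂ ≤ K₁.map (σ : Qb →ₐ[ℚ] Qb)

/-- The Galois closure `Ω_K` of `K` over `ℚ`. -/
noncomputable def Omega (K : IntermediateField ℚ Qb) : IntermediateField ℚ Qb :=
  IntermediateField.normalClosure ℚ K Qb

/-- The compositum `M_F` of `Ω_K` and the Galois closure of `F`. -/
noncomputable def MF (K F : IntermediateField ℚ Qb) : IntermediateField ℚ Qb := Omega K ⊔ Omega F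

/-- The automorphism `g` of `A` is the restriction of the automorphism `h` of `B`, for the embedding
`ι` of `A` in `B`. -/
def Restricts {A B : Type} [Field A] [Field B] [Algebra ℚ A] [Algebra ℚ B] (ι : A →ₐ[ℚ] B)
    (h : B ≃ₐ[ℚ] B) (g : A ≃ₐ[ℚ] A) : Prop :=
  ∀ x : A, h (ι x) = ι (g x)

/-- The group `Gal(B/ℚ)` of the automorphisms of `B` has a subgroup `H` such that every automorphism
of `A` is the restriction of exactly one element of `H`, for the embedding `ι` of `A` in `B`. -/
def SplitsOver {A B : Type} [Field A] [Field B] [Algebra ℚ A] [Algebra ℚ B] (ι : A →ₐ[ℚ] B) :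
    Prop :=
  ∃ H : Subgroup (B ≃ₐ[ℚ] B), ∀ g : A ≃ₐ[ℚ] A, ∃! h : H, Restricts ι h.1 g

/-- The extension `1 → N_F → Γ_F → G → 1` splits: `Γ_F = Gal(M_F/ℚ)` has a subgroup which is
mapped isomorphically onto `G = Gal(Ω_K/ℚ)` by restriction. -/
def Splits (K F : IntermediateField ℚ Qb) : Prop :=
  SplitsOver (inclusion (le_sup_left : Omega K ≤ MF K F))

end Q248.FS
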