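import Pool.Agent.Q248.FS.Defs
import Pool.Agent.Q248.FS.Comb
import Pool.Agent.W401.Cheb.Main

/-!
# Primes of a number field and orbits of a Frobenius element on its embeddings
-/

set_option autoImplicit false
set_option linter.unusedSectionVars false

namespace Q248.FS

open NumberField Pool.Agent.W401.Cheb

/-- Extension of a homomorphism to an algebraically closed field along an integral extension. -/
theorem ext_hom {A B : Type} [CommRing A] [CommRing B] [Algebra A B] [Algebra.IsIntegral A B]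
    (hinj : Function.Injective (algebraMap A B)) {k : Type} [Field k] [IsAlgClosed k]
    (ψ : A →+* k) : ∃ f : B →+* k, ∀ a, f (algebraMap A B a) = ψ a := by
  have hP : (RingHom.ker ψ).IsPrime := RingHom.ker_isPrime ψ
  obtain ⟨Q, -, hQ, hQP⟩ := Ideal.exists_ideal_over_prime_of_isIntegral (S := B) (RingHom.ker ψ) ⊥ (by
    rw [← RingHom.ker_eq_comap_bot, (RingHom.injective_iff_ker_eq_bot _).mp hinj]; exact bot_le)
  have : Q.LiesOver (RingHom.ker ψ) := ⟨hQP.symm⟩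
  let ψ' : A ⧸ RingHom.ker ψ →+* k := RingHom.kerLift ψ
  let _ : Algebra (A ⧸ RingHom.ker ψ) k := ψ'.toAlgebra
  have hψ' : Function.Injective (algebraMap (A ⧸ RingHom.ker ψ) k) := RingHom.kerLift_injective ψ
  have : FaithfulSMul (A ⧸ RingHom.ker ψ) k := (faithfulSMul_iff_algebraMap_injective _ _).mpr hψ'
  have : IsDomain (A ⧸ RingHom.ker ψ) := Ideal.Quotient.isDomain _
  have : IsDomain (B ⧸ Q) := Ideal.Quotient.isDomain _
  have : Algebra.IsIntegral (A ⧸ RingHom.ker ψ) (B ⧸ Q) := inferInstance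
  have : Algebra.IsAlgebraic (A ⧸ RingHom.ker ψ) (B ⧸ Q) := inferInstance
  have : Module.IsTorsionFree (A ⧸ RingHom.ker ψ) (B ⧸ Q) := inferInstance
  let ℓ : (B ⧸ Q) →ₐ[A ⧸ RingHom.ker ψ] k := IsAlgClosed.lift
  refine ⟨(ℓ : (B ⧸ Q) →+* k).comp (Ideal.Quotient.mk Q), fun a => ?_⟩
  have h1 : Ideal.Quotient.mk Q (algebraMap A B a) =
      algebraMap (A ⧸ RingHom.ker ψ) (B ⧸ Q) (Ideal.Quotient.mk _ a) := rfl
  rw [RingHom.comp_apply, h1]
  have := ℓ.commutes (Ideal.Quotient.mk _ a)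
  exact this

section homs

variable {p : ℕ} [hp : Fact p.Prime] {L : Type} [Field L] [NumberField L]

lemma p_ne (p : ℕ) [hp : Fact p.Prime] : Ideal.span {(p : ℤ)} ≠ ⊥ := by
  rw [Ne, Ideal.span_singleton_eq_bot]
  exact_mod_cast hp.out.ne_zero

lemma P_max (P : Pr L p) : P.1.IsMaximal := by
  have h1 : P.1 ≠ ⊥ := Ideal.ne_bot_of_liesOver_of_ne_bot (p_ne p) P.1
  exact Ideal.IsPrime.isMaximal inferInstance h1

lemma p_max (p : ℕ) [hp : Fact p.Prime] : (Ideal.span {(p : ℤ)}).IsMaximal :=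
  Int.ideal_span_isMaximal_of_prime p

lemma p_mem (P : Pr L p) : ((p : ℕ) : 𝓞 L) ∈ P.1 := by
  have h1 : (p : ℤ) ∈ P.1.under ℤ := by
    rw [← Ideal.over_def P.1 (Ideal.span {(p : ℤ)})]
    exact Ideal.mem_span_singleton_self _
  have := Ideal.mem_comap.mp h1
  simpa using this

lemma charP (P : Pr L p) : CharP (𝓞 L ⧸ P.1) p := by
  have : P.1.IsMaximal := P_max P
  have : Nontrivial (𝓞 L ⧸ P.1) := Ideal.Quotient.nontrivial_iff.mpr this.ne_top
  let _ : Field (𝓞 L ⧸ P.1) := Ideal.Quotient.field P.1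
  refine (CharP.charP_iff_prime_eq_zero hp.out).mpr ?_
  have := Ideal.Quotient.eq_zero_iff_mem.mpr (p_mem P)
  rwa [map_natCast] at this

lemma ker_over (ψ : 𝓞 L →+* AlgebraicClosure (ZMod p)) :
    RingHom.ker ψ ∈ (Ideal.span {(p : ℤ)}).primesOver (𝓞 L) := by
  refine ⟨RingHom.ker_isPrime ψ, ⟨?_⟩⟩
  have h1 : RingHom.ker (ψ.comp (algebraMap ℤ (𝓞 L))) = Ideal.span {(p : ℤ)} := by
    have : CharP (AlgebraicClosure (ZMod p)) p :=
      charP_of_injective_algebraMap (algebraMap (ZMod p) _).injective p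
    ext n
    rw [RingHom.mem_ker, Ideal.mem_span_singleton, ← CharP.intCast_eq_zero_iff
      (AlgebraicClosure (ZMod p)) p]
    simp
  rw [← h1]
  rfl

/-- the kernel as a prime above `p` -/
noncomputable def kr (ψ : 𝓞 L →+* AlgebraicClosure (ZMod p)) : Pr L p := ⟨RingHom.ker ψ, ker_over ψ⟩

lemma finQ (P : Pr L p) : Finite (𝓞 L ⧸ P.1) :=
  Ideal.finiteQuotientOfFreeOfNeBot P.1 (Ideal.ne_bot_of_liesOver_of_ne_bot (p_ne p) P.1)

/-- the homomorphisms with a given kernel, as homomorphisms of the residue field -/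
noncomputable def resEquiv (P : Pr L p) :
    {ψ : 𝓞 L →+* AlgebraicClosure (ZMod p) // kr ψ = P} ≃
      (𝓞 L ⧸ P.1 →+* AlgebraicClosure (ZMod p)) where
  toFun ψ := Ideal.Quotient.lift P.1 ψ.1 (fun a ha => by
    have := congrArg Subtype.val ψ.2
    rw [← this] at ha
    exact ha)
  invFun f := ⟨f.comp (Ideal.Quotient.mk P.1), by
    have : P.1.IsMaximal := P_max P
    let _ : Field (𝓞 L ⧸ P.1) := Ideal.Quotient.field P.1
    apply Subtype.ext
    show RingHom.ker _ = _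
    ext x
    rw [RingHom.mem_ker, RingHom.comp_apply, map_eq_zero_iff f f.injective,
      Ideal.Quotient.eq_zero_iff_mem]⟩
  left_inv ψ := by
    apply Subtype.ext
    ext x
    rfl
  right_inv f := by
    apply Ideal.Quotient.ringHom_ext
    ext x
    rfl

lemma card_homs (P : Pr L p) :
    Nat.card {ψ : 𝓞 L →+* AlgebraicClosure (ZMod p) // kr ψ = P} = P.1.inertiaDeg ℤ := by
  classical
  have hPm : P.1.IsMaximal := P_max P
  have := p_max p
  have := finQ P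
  have := charP P
  let _ : Field (𝓞 L ⧸ P.1) := Ideal.Quotient.field P.1
  let _ : Algebra (ZMod p) (𝓞 L ⧸ P.1) := ZMod.algebra _ p
  have : Module.Finite (ZMod p) (𝓞 L ⧸ P.1) := Module.Finite.of_finite
  let _ : Fintype (𝓞 L ⧸ P.1) := Fintype.ofFinite _
  rw [Nat.card_congr (resEquiv P)]
  have h1 : Nat.card (𝓞 L ⧸ P.1 →+* AlgebraicClosure (ZMod p)) =
      Nat.card (𝓞 L ⧸ P.1 →ₐ[ZMod p] AlgebraicClosure (ZMod p)) := by
    refine Nat.card_congr ⟨fun f => ⟨f, fun z => ?_⟩, fun g => (g : 𝓞 L ⧸ P.1 →+* _), fun f => rfl,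
      fun g => rfl⟩
    obtain ⟨n, rfl⟩ := ZMod.intCast_surjective z
    simp
  rw [h1, Nat.card_eq_fintype_card, AlgHom.card (ZMod p) (𝓞 L ⧸ P.1) (AlgebraicClosure (ZMod p))]
  have h2 := Ideal.absNorm_eq_pow_inertiaDeg' P.1 hp.out
  rw [Ideal.inertiaDeg'_eq_inertiaDeg] at h2
  have h3 : Ideal.absNorm P.1 = p ^ Module.finrank (ZMod p) (𝓞 L ⧸ P.1) := by
    rw [Ideal.absNorm_apply, Submodule.cardQuot_apply]
    have := Module.natCard_eq_pow_finrank (K := ZMod p) (V := 𝓞 L ⧸ P.1)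
    rw [Nat.card_zmod] at this
    exact this
  exact Nat.pow_right_injective hp.out.two_le (h3.symm.trans h2)

lemma trans_homs (ψ ψ' : 𝓞 L →+* AlgebraicClosure (ZMod p)) (h : kr ψ = kr ψ') :
    ∃ i : ℕ, ∀ x, ψ' x = (ψ x) ^ (p ^ i) := by
  classical
  set P := kr ψ with hP
  have hPm : P.1.IsMaximal := P_max P
  have := finQ P
  have := charP P
  let _ : Field (𝓞 L ⧸ P.1) := Ideal.Quotient.field P.1
  let _ : Algebra (ZMod p) (𝓞 L ⧸ P.1) := ZMod.algebra _ p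
  have : Module.Finite (ZMod p) (𝓞 L ⧸ P.1) := Module.Finite.of_finite
  let f := resEquiv P ⟨ψ, hP.symm⟩
  let f' := resEquiv P ⟨ψ', h.symm⟩
  have hf : ∀ x, f (Ideal.Quotient.mk P.1 x) = ψ x := fun x => Ideal.Quotient.lift_mk _ _ _
  have hf' : ∀ x, f' (Ideal.Quotient.mk P.1 x) = ψ' x := fun x => Ideal.Quotient.lift_mk _ _ _
  obtain ⟨g, hg⟩ := W54.ChTor.trans (H := (𝓞 L ⧸ P.1) ≃ₐ[ZMod p] (𝓞 L ⧸ P.1)) f f' (fun b hb => by
    have hb2 : b ∈ (⊥ : IntermediateField (ZMod p) (𝓞 L ⧸ P.1)) :=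
      (IsGalois.mem_bot_iff_fixed (F := ZMod p) (E := 𝓞 L ⧸ P.1) b).mpr hb
    obtain ⟨q, rfl⟩ := IntermediateField.mem_bot.mp hb2
    obtain ⟨n, rfl⟩ := ZMod.intCast_surjective q
    simp)
  obtain ⟨i, hi⟩ := (FiniteField.bijective_frobeniusAlgEquivOfAlgebraic_pow (ZMod p)
    (𝓞 L ⧸ P.1)).2 g
  refine ⟨i, fun x => ?_⟩
  have h1 : ∀ (n : ℕ) (y : 𝓞 L ⧸ P.1),
      (FiniteField.frobeniusAlgEquivOfAlgebraic (ZMod p) (𝓞 L ⧸ P.1) ^ n) y = y ^ (p ^ n) := by
    intro n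
    induction n with
    | zero => simp
    | succ n ih =>
      intro y
      rw [pow_succ', AlgEquiv.mul_apply, ih, FiniteField.coe_frobeniusAlgEquivOfAlgebraic]
      simp only [ZMod.card]
      rw [← pow_mul, pow_succ]
  rw [← hf', hg, ← hi]
  show f ((FiniteField.frobeniusAlgEquivOfAlgebraic (ZMod p) (𝓞 L ⧸ P.1) ^ (i : ℕ)) _) = _
  rw [h1, map_pow, hf]

end homs


section emb

variable {M : Type} [Field M] [NumberField M] {L : Type} [Field L] [NumberField L]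

/-- the action of an automorphism of `M` on the embeddings of `L` in `M` -/
def act (w : Gal(M/ℚ)) : Equiv.Perm (L →ₐ[ℚ] M) where
  toFun σ := (w : M →ₐ[ℚ] M).comp σ
  invFun σ := ((w⁻¹ : Gal(M/ℚ)) : M →ₐ[ℚ] M).comp σ
  left_inv σ := by
    ext x
    show w⁻¹ (w (σ x)) = σ x
    rw [← AlgEquiv.mul_apply, inv_mul_cancel, AlgEquiv.one_apply]
  right_inv σ := by
    ext x
    show w (w⁻¹ (σ x)) = σ x
    rw [← AlgEquiv.mul_apply, mul_inv_cancel, AlgEquiv.one_apply]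

lemma act_apply (w : Gal(M/ℚ)) (σ : L →ₐ[ℚ] M) (x : L) : act w σ x = w (σ x) := rfl

lemma act_mul (w w' : Gal(M/ℚ)) : (act (w * w') : Equiv.Perm (L →ₐ[ℚ] M)) = act w * act w' := rfl

lemma act_one : (act (1 : Gal(M/ℚ)) : Equiv.Perm (L →ₐ[ℚ] M)) = 1 := rfl

lemma act_pow (w : Gal(M/ℚ)) (n : ℕ) : (act w : Equiv.Perm (L →ₐ[ℚ] M)) ^ n = act (w ^ n) := by
  induction n with
  | zero => rfl
  | succ n ih => rw [pow_succ, ih, pow_succ, act_mul]

variable {p : ℕ} [hp : Fact p.Prime]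

/-- the reduction of an embedding -/
noncomputable def red (φ : 𝓞 M →+* AlgebraicClosure (ZMod p)) (σ : L →ₐ[ℚ] M) :
    𝓞 L →+* AlgebraicClosure (ZMod p) :=
  φ.comp (RingOfIntegers.mapRingHom (σ : L →+* M))

lemma red_apply (φ : 𝓞 M →+* AlgebraicClosure (ZMod p)) (σ : L →ₐ[ℚ] M) (x : 𝓞 L) :
    red φ σ x = φ (RingOfIntegers.mapRingHom (σ : L →+* M) x) := rfl

lemma map_act (w : Gal(M/ℚ)) (σ : L →ₐ[ℚ] M) (x : 𝓞 L) :
    RingOfIntegers.mapRingHom ((act w σ : L →ₐ[ℚ] M) : L →+* M) x =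
      w • RingOfIntegers.mapRingHom (σ : L →+* M) x := by
  apply RingOfIntegers.ext
  rfl

theorem transM [IsGalois ℚ M] (φ φ' : 𝓞 M →+* AlgebraicClosure (ZMod p)) :
    ∃ g : Gal(M/ℚ), ∀ y, φ' y = φ (g • y) := by
  refine W54.ChTor.trans φ φ' fun b hb => ?_
  have hb1 : ∀ σ : Gal(M/ℚ), σ (b : M) = (b : M) := fun σ =>
    congrArg (algebraMap (𝓞 M) M) (hb σ)
  have hb2 : (b : M) ∈ (⊥ : IntermediateField ℚ M) :=
    (IsGalois.mem_bot_iff_fixed (F := ℚ) (E := M) (b : M)).mpr hb1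
  obtain ⟨q, hq⟩ := IntermediateField.mem_bot.mp hb2
  have hint : IsIntegral ℤ q := by
    rw [← isIntegral_algebraMap_iff (algebraMap ℚ M).injective, hq]
    exact b.2
  obtain ⟨n, hn⟩ := IsIntegrallyClosed.isIntegral_iff.mp hint
  have : b = (n : 𝓞 M) := by
    apply RingOfIntegers.ext
    rw [← hq, ← hn]
    simp
  rw [this, map_intCast, map_intCast]

theorem exists_phi (M : Type) [Field M] [NumberField M] (p : ℕ) [Fact p.Prime] :
    Nonempty (𝓞 M →+* AlgebraicClosure (ZMod p)) := by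
  obtain ⟨φ₀, -⟩ := W54.ChTor.exists_ext (A := ℤ) (B := 𝓞 M) (RingHom.injective_int _) p
    (Int.castRingHom (ZMod p))
  exact ⟨φ₀⟩

theorem exists_frob [IsGalois ℚ M] (φ : 𝓞 M →+* AlgebraicClosure (ZMod p)) :
    ∃ w : Gal(M/ℚ), HasFrob p φ w := by
  have : CharP (AlgebraicClosure (ZMod p)) p :=
    charP_of_injective_algebraMap (algebraMap (ZMod p) _).injective p
  obtain ⟨w, hw⟩ := transM φ ((frobenius _ p).comp φ)
  exact ⟨w, fun x => (hw x).symm⟩

theorem red_surj [IsGalois ℚ M] (σ₀ : L →ₐ[ℚ] M) (φ : 𝓞 M →+* AlgebraicClosure (ZMod p))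
    (ψ : 𝓞 L →+* AlgebraicClosure (ZMod p)) : ∃ σ : L →ₐ[ℚ] M, red φ σ = ψ := by
  let _ : Algebra (𝓞 L) (𝓞 M) := (RingOfIntegers.mapRingHom (σ₀ : L →+* M)).toAlgebra
  have : IsScalarTower ℤ (𝓞 L) (𝓞 M) := by
    apply IsScalarTower.of_algebraMap_eq
    intro n
    simp
  have : Algebra.IsIntegral (𝓞 L) (𝓞 M) := Algebra.IsIntegral.tower_top (R := ℤ)
  obtain ⟨f, hf⟩ := ext_hom (A := 𝓞 L) (B := 𝓞 M) (by
    intro a b hab
    have h1 := congrArg (fun z : 𝓞 M => (z : M)) hab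
    have h2 : σ₀ (a : L) = σ₀ (b : L) := h1
    exact RingOfIntegers.ext (σ₀.toRingHom.injective h2)) ψ
  obtain ⟨g, hg⟩ := transM φ f
  refine ⟨act g σ₀, ?_⟩
  ext x
  rw [red_apply, map_act, ← hg]
  exact hf x

theorem card_emb [IsGalois ℚ M] (σ₀ : L →ₐ[ℚ] M) :
    Nat.card (L →ₐ[ℚ] M) = Module.finrank ℚ L := by
  apply AlgHom.natCard_of_splits
  intro x
  have h1 : minpoly ℚ x = minpoly ℚ (σ₀ x) := (minpoly.algHom_eq σ₀ σ₀.toRingHom.injective x).symm
  rw [h1]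
  exact Normal.splits inferInstance _

instance finPr : Finite (Pr L p) := by
  have : (Ideal.span {(p : ℤ)}).IsMaximal := p_max p
  exact Set.Finite.to_subtype (IsDedekindDomain.primesOver_finite (Ideal.span {(p : ℤ)}) (𝓞 L))

theorem card_all (hU : Unram L p) :
    Nat.card (𝓞 L →+* AlgebraicClosure (ZMod p)) = Module.finrank ℚ L := by
  classical
  have := p_max p
  let _ : Fintype (Pr L p) := Fintype.ofFinite _
  have h0 := Ideal.sum_ramification_inertia_eq_finrank (Ideal.span {(p : ℤ)}) (𝓞 L)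
  rw [RingOfIntegers.rank] at h0
  rw [← h0]
  have h1 : ∀ P : Pr L p, P.1.ramificationIdx ℤ * P.1.inertiaDeg ℤ =
      Nat.card {ψ : 𝓞 L →+* AlgebraicClosure (ZMod p) // kr ψ = P} := by
    intro P
    rw [hU P, one_mul, card_homs]
  rw [Finset.sum_congr rfl fun P _ => h1 P]
  have : ∀ P : Pr L p, Finite {ψ : 𝓞 L →+* AlgebraicClosure (ZMod p) // kr ψ = P} := by
    intro P
    apply Nat.finite_of_card_ne_zero
    rw [card_homs]
    exact (Ideal.inertiaDeg_pos P.1 ℤ).ne'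
  rw [← Nat.card_sigma]
  exact (Nat.card_congr (Equiv.sigmaFiberEquiv (kr (p := p) (L := L)))).symm

theorem red_bij [IsGalois ℚ M] (σ₀ : L →ₐ[ℚ] M) (hU : Unram L p)
    (φ : 𝓞 M →+* AlgebraicClosure (ZMod p)) :
    Function.Bijective (fun σ : L →ₐ[ℚ] M => red φ σ) := by
  have h1 : Function.Surjective (fun σ : L →ₐ[ℚ] M => red φ σ) := red_surj σ₀ φ
  exact h1.bijective_of_nat_card_le (by rw [card_emb σ₀, card_all hU])

/-- The orbits of a Frobenius element on the embeddings are the primes above `p`. -/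
theorem dict [IsGalois ℚ M] (σ₀ : L →ₐ[ℚ] M) (hU : Unram L p)
    (φ : 𝓞 M →+* AlgebraicClosure (ZMod p)) (w : Gal(M/ℚ)) (hw : HasFrob p φ w) :
    IsOrb (act w) (fun σ : L →ₐ[ℚ] M => kr (red φ σ)) ∧
    ∀ P : Pr L p, Nat.card {σ : L →ₐ[ℚ] M // kr (red φ σ) = P} = P.1.inertiaDeg ℤ := by
  have hbij := red_bij σ₀ hU φ
  have hw1 : ∀ (σ : L →ₐ[ℚ] M) (x : 𝓞 L), red φ (act w σ) x = (red φ σ x) ^ p := by
    intro σ x
    rw [red_apply, map_act, hw, red_apply]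
  have hwn : ∀ (n : ℕ) (σ : L →ₐ[ℚ] M) (x : 𝓞 L),
      red φ ((act w ^ n) σ) x = (red φ σ x) ^ (p ^ n) := by
    intro n
    induction n with
    | zero => intro σ x; simp
    | succ n ih =>
      intro σ x
      rw [pow_succ', Equiv.Perm.mul_apply, hw1, ih, ← pow_mul, pow_succ]
  refine ⟨⟨?_, ?_, ?_⟩, ?_⟩
  · intro P
    have h1 : 0 < Nat.card {ψ : 𝓞 L →+* AlgebraicClosure (ZMod p) // kr ψ = P} := by
      rw [card_homs]
      exact Ideal.inertiaDeg_pos P.1 ℤ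
    obtain ⟨⟨ψ, hψ⟩⟩ := (Nat.card_pos_iff.mp h1).1
    obtain ⟨σ, hσ⟩ := hbij.2 ψ
    exact ⟨σ, by simp only at hσ ⊢; rw [hσ, hψ]⟩
  · intro σ
    apply Subtype.ext
    show RingHom.ker _ = RingHom.ker _
    ext x
    rw [RingHom.mem_ker, RingHom.mem_ker, hw1]
    exact pow_eq_zero_iff hp.out.ne_zero
  · intro σ σ' h
    obtain ⟨i, hi⟩ := trans_homs (red φ σ) (red φ σ') h
    refine ⟨i, hbij.1 ?_⟩
    simp only
    ext x
    rw [hi, zpow_natCast, hwn]
  · intro P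
    rw [← card_homs P]
    exact Nat.card_congr ((Equiv.ofBijective _ hbij).subtypeEquiv fun σ => Iff.rfl)

end emb

end Q248.FS
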