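import Mathlib

/-!
# A quotient of a subdirect product of a symmetric group
-/

set_option autoImplicit false

namespace Q248.FS

open Equiv Equiv.Perm

section goursat

variable {T W G : Type} [Fintype T] [DecidableEq T] [Group W] [Group G] [Finite G] [Finite W]

omit [Finite W] in
lemma alt_le (θ : W →* Perm T) (q : W →* G) (hθ : Function.Surjective θ)
    (hT : (Fintype.card T).Prime) (hTG : Nat.card G < Fintype.card T) (hT3 : 3 ≤ Fintype.card T) :
    alternatingGroup T ≤ q.ker.map θ := by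
  set N1 : Subgroup (Perm T) := q.ker.map θ with hN1
  have hnorm : N1.Normal := Subgroup.Normal.map inferInstance θ hθ
  have : Fact (Fintype.card T).Prime := ⟨hT⟩
  obtain ⟨c, hc⟩ := exists_prime_orderOf_dvd_card (G := Perm T) (Fintype.card T) (by
    rw [Fintype.card_perm]
    exact Nat.dvd_factorial hT.pos le_rfl)
  have hcN : c ∈ N1 := by
    obtain ⟨w, hw⟩ := hθ c
    have h1 : c ^ Nat.card G ∈ N1 := by
      rw [hN1, Subgroup.mem_map]
      refine ⟨w ^ Nat.card G, ?_, by rw [map_pow, hw]⟩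
      rw [MonoidHom.mem_ker, map_pow, pow_card_eq_one']
    have hcop : Nat.Coprime (orderOf c) (Nat.card G) := by
      rw [hc]
      exact (Nat.Prime.coprime_iff_not_dvd hT).mpr
        (Nat.not_dvd_of_pos_of_lt Nat.card_pos hTG)
    obtain ⟨m, hm⟩ := exists_pow_eq_self_of_coprime hcop.symm
    rw [← hm]
    exact N1.pow_mem h1 m
  have hc2 : c ^ 2 ≠ 1 := by
    intro h
    have := orderOf_dvd_of_pow_eq_one h
    rw [hc] at this
    have := Nat.le_of_dvd (by norm_num) this
    omega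
  obtain ⟨a, ha⟩ : ∃ a, c (c a) ≠ a := by
    by_contra hcon
    push Not at hcon
    apply hc2
    ext a
    rw [pow_two, Perm.mul_apply, hcon, Perm.one_apply]
  have hca : c a ≠ a := fun h => ha (by rw [h, h])
  have hcca : c (c a) ≠ c a := fun h => hca (c.injective h)
  -- the three cycle
  have h3 : (swap (c a) (c (c a)) * swap (c a) a).IsThreeCycle :=
    isThreeCycle_swap_mul_swap_same hcca.symm hca ha
  have h4 : swap (c a) (c (c a)) * swap (c a) a ∈ N1 := by
    have h5 : swap (c a) (c (c a)) * swap (c a) a = c * (swap a (c a) * c⁻¹ * (swap a (c a))⁻¹) := by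
      have h6 : swap (c a) (c (c a)) = c * swap a (c a) * c⁻¹ := by
        rw [mul_swap_eq_swap_mul, mul_assoc, mul_inv_cancel, mul_one]
      rw [h6, swap_inv, swap_comm (c a) a]
      group
    rw [h5]
    exact N1.mul_mem hcN (hnorm.conj_mem _ (N1.inv_mem hcN) _)
  rw [← closure_three_cycles_eq_alternating, Subgroup.closure_le]
  intro σ hσ
  have h7 : IsConj (swap (c a) (c (c a)) * swap (c a) a) σ := by
    rw [isConj_iff_cycleType_eq]
    rw [h3.cycleType, IsThreeCycle.cycleType hσ]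
  obtain ⟨τ, hτ⟩ := isConj_iff.mp h7
  rw [SetLike.mem_coe, ← hτ]
  exact hnorm.conj_mem _ h4 _

omit [Finite W] in
/-- The sign character of a subdirect product. -/
theorem exists_char (θ : W →* Perm T) (q : W →* G) (hθ : Function.Surjective θ)
    (hq : Function.Surjective q)
    (hT : (Fintype.card T).Prime) (hTG : Nat.card G < Fintype.card T) (hT3 : 3 ≤ Fintype.card T) :
    ∃ χ : G →* ℤˣ, ∀ σ g, sign σ = χ g → ∃ w, θ w = σ ∧ q w = g := by
  have halt := alt_le θ q hθ hT hTG hT3
  by_cases hodd : ∃ w, q w = 1 ∧ sign (θ w) = -1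
  · obtain ⟨w0, hw0, hs0⟩ := hodd
    refine ⟨1, fun σ g _ => ?_⟩
    obtain ⟨wg, hwg⟩ := hq g
    have h1 : σ * (θ wg)⁻¹ ∈ q.ker.map θ := by
      rcases Int.units_eq_one_or (sign (σ * (θ wg)⁻¹)) with h | h
      · exact halt (mem_alternatingGroup.mpr h)
      · have h2 : (σ * (θ wg)⁻¹) * θ w0 ∈ q.ker.map θ := by
          apply halt
          rw [mem_alternatingGroup, map_mul, h, hs0]
          decide
        have h3 : (θ w0) ∈ q.ker.map θ := ⟨w0, hw0, rfl⟩
        have := (q.ker.map θ).mul_mem h2 ((q.ker.map θ).inv_mem h3)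
        rwa [mul_inv_cancel_right] at this
    obtain ⟨n, hn, hn2⟩ := h1
    refine ⟨n * wg, ?_, ?_⟩
    · rw [map_mul, hn2]
      group
    · rw [map_mul, hwg, MonoidHom.mem_ker.mp hn, one_mul]
  · push Not at hodd
    have hker : q.ker ≤ (sign.comp θ).ker := by
      intro w hw
      rw [MonoidHom.mem_ker, MonoidHom.comp_apply]
      exact (Int.units_eq_one_or _).resolve_right (hodd w hw)
    set χ : G →* ℤˣ := q.liftOfSurjective hq ⟨sign.comp θ, hker⟩ with hχ
    have hχw : ∀ w, χ (q w) = sign (θ w) := fun w => by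
      rw [hχ]
      exact MonoidHom.liftOfRightInverse_comp_apply _ _ _ _ w
    refine ⟨χ, fun σ g hσ => ?_⟩
    obtain ⟨wg, hwg⟩ := hq g
    have h1 : σ * (θ wg)⁻¹ ∈ q.ker.map θ := by
      apply halt
      rw [mem_alternatingGroup, map_mul, map_inv, hσ, ← hwg, hχw, mul_inv_cancel]
    obtain ⟨n, hn, hn2⟩ := h1
    refine ⟨n * wg, ?_, ?_⟩
    · rw [map_mul, hn2]
      group
    · rw [map_mul, hwg, MonoidHom.mem_ker.mp hn, one_mul]

end goursat

/-- The homomorphism from the signs to the permutations given by a transposition. -/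
def tr {T : Type} [DecidableEq T] (a b : T) : ℤˣ →* Perm T where
  toFun u := if u = 1 then 1 else swap a b
  map_one' := by simp
  map_mul' := by
    intro u v
    rcases Int.units_eq_one_or u with rfl | rfl <;> rcases Int.units_eq_one_or v with rfl | rfl <;>
      simp

lemma sign_tr {T : Type} [Fintype T] [DecidableEq T] {a b : T} (hab : a ≠ b) (u : ℤˣ) :
    sign (tr a b u) = u := by
  rcases Int.units_eq_one_or u with rfl | rfl
  · simp [tr]
  · simp [tr, sign_swap hab]

section lift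

variable {T W G : Type} [Fintype T] [DecidableEq T] [Group W] [Group G]

theorem exists_lift (θ : W →* Perm T) (q : W →* G) (hinj : ∀ w, θ w = 1 → q w = 1 → w = 1)
    (χ : G →* ℤˣ) (hχ : ∀ σ g, sign σ = χ g → ∃ w, θ w = σ ∧ q w = g)
    {H : Type} [Group H] (α : H →* Perm T) (β : H →* G) (hαβ : ∀ h, sign (α h) = χ (β h)) :
    ∃ f : H →* W, (∀ h, θ (f h) = α h) ∧ ∀ h, q (f h) = β h := by
  have hex : ∀ h, ∃ w, θ w = α h ∧ q w = β h := fun h => hχ _ _ (hαβ h)
  choose f hf1 hf2 using hex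
  have huniq : ∀ w w', θ w = θ w' → q w = q w' → w = w' := by
    intro w w' h1 h2
    have := hinj (w * w'⁻¹) (by rw [map_mul, map_inv, h1, mul_inv_cancel])
      (by rw [map_mul, map_inv, h2, mul_inv_cancel])
    exact mul_inv_eq_one.mp this
  refine ⟨MonoidHom.mk' f fun a b => huniq _ _ ?_ ?_, hf1, hf2⟩
  · rw [hf1, map_mul, map_mul, hf1, hf1]
  · rw [hf2, map_mul, map_mul, hf2, hf2]

end lift

/-- The embedding and the section. -/
theorem grp {T W G Γ : Type} [Fintype T] [DecidableEq T] [Group W] [Group G] [Finite G]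
    [Finite W] [Group Γ] [Finite Γ]
    (θ : W →* Perm T) (q : W →* G) (hθ : Function.Surjective θ) (hq : Function.Surjective q)
    (hinj : ∀ w, θ w = 1 → q w = 1 → w = 1)
    (hT : (Fintype.card T).Prime) (hTG : Nat.card G < Fintype.card T)
    (hTΓ : 2 * Nat.card Γ + 2 ≤ Fintype.card T) (p : Γ →* G) :
    (∃ j : Γ →* W, Function.Injective j ∧ ∀ γ, q (j γ) = p γ) ∧
    ∃ s : G →* W, ∀ g, q (s g) = g := by
  classical
  have := Fintype.ofFinite Γ
  have hΓ : 0 < Nat.card Γ := Nat.card_pos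
  obtain ⟨χ, hχ⟩ := exists_char θ q hθ hq hT hTG (by omega)
  constructor
  · obtain ⟨e, he⟩ := Nat.exists_eq_add_of_le hTΓ
    have E : ((Γ ⊕ Γ) ⊕ (Fin 2 ⊕ Fin e)) ≃ T := by
      apply Fintype.equivOfCardEq
      rw [he, Fintype.card_sum, Fintype.card_sum, Fintype.card_sum, Fintype.card_fin,
        Fintype.card_fin, Nat.card_eq_fintype_card]
      ring
    let L : Γ →* Perm Γ := MulAction.toPermHom Γ Γ
    let t2 : ℤˣ →* Perm (Fin 2) := tr 0 1
    let A : Γ →* Perm (Γ ⊕ Γ) := (Perm.sumCongrHom Γ Γ).comp (L.prod L)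
    let B : Γ →* Perm (Fin 2 ⊕ Fin e) := (Perm.sumCongrHom (Fin 2) (Fin e)).comp
      ((t2.comp (χ.comp p)).prod 1)
    let C : Γ →* Perm ((Γ ⊕ Γ) ⊕ (Fin 2 ⊕ Fin e)) :=
      (Perm.sumCongrHom (Γ ⊕ Γ) (Fin 2 ⊕ Fin e)).comp (A.prod B)
    let lam : Γ →* Perm T := E.permCongrHom.toMonoidHom.comp C
    have hsign : ∀ γ, sign (lam γ) = χ (p γ) := by
      intro γ
      have h1 : lam γ = E.permCongr (Perm.sumCongr (Perm.sumCongr (L γ) (L γ))
        (Perm.sumCongr (t2 (χ (p γ))) 1)) := rfl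
      rw [h1, sign_permCongr, sign_sumCongr, sign_sumCongr, sign_sumCongr,
        sign_tr (by decide), map_one, mul_one]
      rcases Int.units_eq_one_or (sign (L γ)) with h | h <;> rw [h] <;> simp
    obtain ⟨j, hj1, hj2⟩ := exists_lift θ q hinj χ hχ lam p hsign
    refine ⟨j, ?_, hj2⟩
    rw [injective_iff_map_eq_one]
    intro γ hγ
    have h1 := hj1 γ
    rw [hγ, map_one] at h1
    have h2 : lam γ (E (Sum.inl (Sum.inl 1))) = E (Sum.inl (Sum.inl γ)) := by
      have h3 : lam γ = E.permCongr (Perm.sumCongr (Perm.sumCongr (L γ) (L γ))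
        (Perm.sumCongr (t2 (χ (p γ))) 1)) := rfl
      rw [h3, Equiv.permCongr_apply, Equiv.symm_apply_apply]
      simp [L]
    rw [← h1, Perm.one_apply] at h2
    have h4 := E.injective h2
    exact (Sum.inl_injective (Sum.inl_injective h4)).symm
  · have h2 : 2 ≤ Fintype.card T := by omega
    obtain ⟨a, b, hab⟩ := Fintype.exists_pair_of_one_lt_card (α := T) h2
    obtain ⟨s, -, hs⟩ := exists_lift θ q hinj χ hχ ((tr a b).comp χ) (MonoidHom.id G)
      (fun g => sign_tr hab (χ g))
    exact ⟨s, hs⟩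

end Q248.FS
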