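import Mathlib

/-!
# Inducing equivariant maps with equal fibres from a subgroup
-/

set_option autoImplicit false

namespace Q248.FS

/-- A function on the group which is a `γ`-equivariant map with equal fibres on `Γ / U`. -/
def Good {Γ G X : Type} [Group Γ] [Group G] [MulAction G X] (p : Γ →* G) (U : Subgroup Γ) (γ : Γ)
    (c : ℕ) : Prop :=
  ∃ h : Γ → X, (∀ g, ∀ u ∈ U, h (g * u) = h g) ∧ (∀ g, h (γ * g) = p γ • h g) ∧
    ∀ x, Nat.card {g // h g = x} = c

variable {Γ W G X : Type} [Group Γ] [Group W] [Group G] [MulAction G X] [Finite Γ] [Finite W]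

omit [Finite Γ] [Finite W] in
lemma gen_exists (j : Γ →* W) (hj : Function.Injective j) (v : W) :
    ∃ γ : Γ, ∀ δ : Γ, (∃ n : ℤ, v ^ n = j δ) → ∃ l : ℤ, δ = γ ^ l := by
  set D : Subgroup Γ := (Subgroup.zpowers v).comap j with hD
  let f : D →* Subgroup.zpowers v := (j.comp D.subtype).codRestrict _ (fun d => d.2)
  have hf : Function.Injective f := by
    intro a b hab
    have h1 : j a.1 = j b.1 := congrArg Subtype.val hab
    exact Subtype.ext (hj h1)
  have : IsCyclic D := isCyclic_of_injective f hf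
  obtain ⟨g, hg⟩ := IsCyclic.exists_generator (α := D)
  refine ⟨g.1, fun δ hδ => ?_⟩
  obtain ⟨n, hn⟩ := hδ
  have h1 : δ ∈ D := by
    rw [hD, Subgroup.mem_comap]
    exact ⟨n, hn⟩
  obtain ⟨l, hl⟩ := hg ⟨δ, h1⟩
  exact ⟨l, (congrArg Subtype.val hl).symm⟩

theorem induct (p : Γ →* G) (q : W →* G) (j : Γ →* W) (hj : Function.Injective j)
    (hq : ∀ g, q (j g) = p g) (U : Subgroup Γ) (c c' : ℕ)
    (hc : c' * Nat.card Γ = Nat.card W * c)
    (H : ∀ γ : Γ, Good (X := X) p U γ c) (w : W) :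
    Good (X := X) q (U.map j) w c' := by
  classical
  have := Fintype.ofFinite Γ
  have := Fintype.ofFinite W
  -- the double cosets
  let s : Setoid W :=
    { r := fun a b => ∃ (i : ℤ) (δ : Γ), b = w ^ i * a * j δ
      iseqv := by
        refine ⟨fun a => ⟨0, 1, by simp⟩, ?_, ?_⟩
        · rintro a b ⟨i, δ, rfl⟩
          refine ⟨-i, δ⁻¹, ?_⟩
          rw [map_inv]
          group
        · rintro a b c ⟨i, δ, rfl⟩ ⟨i', δ', rfl⟩
          refine ⟨i' + i, δ * δ', ?_⟩
          rw [map_mul, zpow_add]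
          group }
  let rep : W → W := fun b => (Quotient.mk s b).out
  have hrep : ∀ b, ∃ (i : ℤ) (δ : Γ), b = w ^ i * rep b * j δ := fun b =>
    Quotient.exact (s := s) (Quotient.out_eq (Quotient.mk s b))
  have hrep2 : ∀ b (i : ℤ) (δ : Γ), rep (w ^ i * b * j δ) = rep b := by
    intro b i δ
    show (Quotient.mk s _).out = (Quotient.mk s _).out
    congr 1
    symm
    exact Quotient.sound (s := s) ⟨i, δ, rfl⟩
  choose ib db hb using hrep
  choose ga hga using fun a : W => gen_exists j hj (a⁻¹ * w * a)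
  choose h hU hγ hcard using fun a : W => H (ga a)
  have hpow : ∀ a (l : ℤ) g, h a (ga a ^ l * g) = p (ga a) ^ l • h a g := by
    intro a l g
    induction l using Int.induction_on with
    | zero => simp
    | succ n ih =>
      rw [add_comm, zpow_add, zpow_one, mul_assoc, hγ, ih, zpow_add, zpow_one, mul_smul]
    | pred n ih =>
      have h1 := hγ a (ga a ^ (-(n : ℤ) - 1) * g)
      rw [← mul_assoc, ← zpow_one_add, show (1 : ℤ) + (-(n : ℤ) - 1) = -(n : ℤ) by ring, ih] at h1
      rw [← inv_smul_smul (p (ga a)) (h a (ga a ^ (-(n : ℤ) - 1) * g)), ← h1, ← mul_smul,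
        ← zpow_neg_one, ← zpow_add]
      congr 2
      ring
  have wd : ∀ a (i i' : ℤ) (δ δ' : Γ), w ^ i * a * j δ = w ^ i' * a * j δ' →
      q w ^ i • q a • h a δ = q w ^ i' • q a • h a δ' := by
    intro a i i' δ δ' hh
    have e0 : ∀ n : ℤ, (a⁻¹ * w * a) ^ n = a⁻¹ * w ^ n * a := by
      intro n
      have := conj_zpow (a := a⁻¹) (b := w) (i := n)
      rwa [inv_inv] at this
    have e1 : (a⁻¹ * w * a) ^ (i - i') = j (δ' * δ⁻¹) := by
      rw [e0, map_mul, map_inv, sub_eq_neg_add, zpow_add, eq_mul_inv_iff_mul_eq]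
      have : a⁻¹ * (w ^ (-i') * w ^ i) * a * j δ = a⁻¹ * w ^ (-i') * (w ^ i * a * j δ) := by
        group
      rw [this, hh]
      group
    obtain ⟨l, hl⟩ := hga a _ ⟨_, e1⟩
    have e2 : δ' = ga a ^ l * δ := by rw [← hl]; group
    have e3 : p (ga a) ^ l = (q a)⁻¹ * (q w ^ (i - i')) * q a := by
      rw [← map_zpow, ← hl, ← hq, ← e1, e0, map_mul, map_mul, map_inv, map_zpow]
    rw [e2, hpow, e3]
    simp only [← mul_smul]
    congr 1
    group
  let Hf : W → X := fun b => q w ^ ib b • q (rep b) • h (rep b) (db b)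
  have hH : ∀ b (i : ℤ) (δ : Γ), Hf (w ^ i * rep b * j δ) = q w ^ i • q (rep b) • h (rep b) δ := by
    intro b i δ
    have e1 : rep (w ^ i * rep b * j δ) = rep b := by
      rw [hrep2]
      have := hrep2 (rep b) (ib b) (db b)
      rw [← hb] at this
      exact this.symm
    have e2 := hb (w ^ i * rep b * j δ)
    show q w ^ ib _ • q (rep _) • h (rep _) (db _) = _
    rw [e1] at e2 ⊢
    exact (wd _ _ _ _ _ e2).symm
  refine ⟨Hf, ?_, ?_, ?_⟩
  · rintro g _ ⟨u, hu, rfl⟩
    have e1 : g * j u = w ^ ib g * rep g * j (db g * u) := by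
      rw [map_mul, ← mul_assoc, ← hb]
    rw [e1, hH, hU _ _ u hu]
  · intro g
    have e1 : w * g = w ^ (1 + ib g) * rep g * j (db g) := by
      rw [zpow_add, zpow_one, mul_assoc, mul_assoc, ← mul_assoc (w ^ ib g), ← hb]
    rw [e1, hH, zpow_add, zpow_one, mul_smul]
  · intro x
    have inner : ∀ b : W, Nat.card {δ : Γ // Hf (b * j δ) = x} = c := by
      intro b
      have e1 : ∀ δ, Hf (b * j δ) = q w ^ ib b • q (rep b) • h (rep b) (db b * δ) := by
        intro δ
        have : b * j δ = w ^ ib b * rep b * j (db b * δ) := by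
          rw [map_mul, ← mul_assoc, ← hb]
        rw [this, hH]
      rw [← hcard (rep b) ((q (rep b))⁻¹ • (q w ^ ib b)⁻¹ • x)]
      refine Nat.card_congr ((Equiv.mulLeft (db b)).subtypeEquiv fun δ => ?_)
      rw [e1, Equiv.coe_mulLeft, eq_inv_smul_iff, eq_inv_smul_iff]
    have e1 : Nat.card (Σ b : W, {δ : Γ // Hf (b * j δ) = x}) = Nat.card W * c := by
      rw [Nat.card_sigma, Finset.sum_congr rfl fun b _ => inner b, Finset.sum_const,
        Finset.card_univ, smul_eq_mul, Nat.card_eq_fintype_card]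
    let E : W × Γ ≃ W × Γ :=
      { toFun := fun z => (z.1 * j z.2, z.2)
        invFun := fun z => (z.1 * (j z.2)⁻¹, z.2)
        left_inv := fun z => by simp
        right_inv := fun z => by simp }
    have e2 : Nat.card {z : W × Γ // Hf (z.1 * j z.2) = x} = Nat.card {z : W × Γ // Hf z.1 = x} :=
      Nat.card_congr (E.subtypeEquiv fun z => Iff.rfl)
    have e3 : Nat.card {z : W × Γ // Hf z.1 = x} = Nat.card {b // Hf b = x} * Nat.card Γ := by
      rw [← Nat.card_prod]
      exact Nat.card_congr (Equiv.prodSubtypeFstEquivSubtypeProd (p := fun b => Hf b = x))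
    rw [← Nat.card_congr (Equiv.subtypeProdEquivSigmaSubtype fun b δ => Hf (b * j δ) = x), e2, e3,
      ← hc] at e1
    exact Nat.eq_of_mul_eq_mul_right Nat.card_pos e1

end Q248.FS
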