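import Pool.Agent.Q248.FS.Dict
import Pool.Agent.Q248.FS.Induct

/-!
# Locally contained number fields and equivariant maps between the sets of embeddings
-/

set_option autoImplicit false
set_option linter.unusedSectionVars false

namespace Q248.FS

open NumberField Pool.Agent.W401.Cheb

theorem fin_ram (L : Type) [Field L] [NumberField L] : ∃ D : ℕ, 0 < D ∧
    ∀ p : ℕ, p.Prime → ¬ p ∣ D → Unram L p := by
  refine ⟨(discr L).natAbs, Int.natAbs_pos.mpr (discr_ne_zero L), fun p hp hpD P => ?_⟩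
  have : Fact p.Prime := ⟨hp⟩
  have h1 : ¬ (p : ℤ) ∣ discr L := by
    intro h
    exact hpD (Int.natCast_dvd.mp h)
  have hPm : P.1.IsMaximal := P_max P
  have h2 := (not_dvd_discr_iff_forall_liesOver L (𝓞 L) (Nat.prime_iff_prime_int.mp hp)).mp h1 P.1
    (P_max P) inferInstance
  exact Ideal.ramificationIdx_eq_one P.1 ℤ

section

variable {M : Type} [Field M] [NumberField M] [IsGalois ℚ M]
  {F K : Type} [Field F] [NumberField F] [Field K] [NumberField K]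

theorem cheb_dir (ιF : F →ₐ[ℚ] M) (ιK : K →ₐ[ℚ] M) (h : LocallySub K F) (γ : Gal(M/ℚ)) :
    EqMap (act γ : Equiv.Perm (F →ₐ[ℚ] M)) (act γ : Equiv.Perm (K →ₐ[ℚ] M))
      (Module.finrank ℚ F / Module.finrank ℚ K) := by
  obtain ⟨D1, hD1, h1⟩ := fin_ram F
  obtain ⟨D2, hD2, h2⟩ := fin_ram K
  have hinf := infinite_frob M γ
  obtain ⟨p, ⟨hp, hx⟩, hpB⟩ := hinf.exists_gt (max D1 D2)
  have : Fact p.Prime := ⟨hp⟩
  have hU1 : Unram F p := h1 p hp (Nat.not_dvd_of_pos_of_lt hD1 (lt_of_le_of_lt (le_max_left _ _) hpB))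
  have hU2 : Unram K p := h2 p hp (Nat.not_dvd_of_pos_of_lt hD2 (lt_of_le_of_lt (le_max_right _ _) hpB))
  have hφ : ∃ φ : 𝓞 M →+* AlgebraicClosure (ZMod p), HasFrob p φ γ := by
    by_contra hcon
    push Not at hcon
    apply hx
    rw [xp, dif_pos hp, Nat.card_eq_zero]
    left
    exact ⟨fun φ => hcon φ.1 φ.2⟩
  obtain ⟨φ, hφ⟩ := hφ
  obtain ⟨hF1, hF2⟩ := dict ιF hU1 φ γ hφ
  obtain ⟨hK1, hK2⟩ := dict ιK hU2 φ γ hφ
  obtain ⟨f, e, he, hs⟩ := h.2 p hp hU1 hU2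
  refine ofPrimes hF1 hK1 f e (fun b => ?_) hs
  rw [hF2, hK2]
  exact (he b).2

theorem card_emb_pos (ιK : K →ₐ[ℚ] M) : 0 < Nat.card (K →ₐ[ℚ] M) := by
  rw [card_emb ιK]
  exact Module.finrank_pos

theorem frob_dir (ιF : F →ₐ[ℚ] M) (ιK : K →ₐ[ℚ] M) (r : ℕ)
    (h : ∀ w : Gal(M/ℚ), EqMap (act w : Equiv.Perm (F →ₐ[ℚ] M)) (act w : Equiv.Perm (K →ₐ[ℚ] M)) r) :
    LocallySub K F := by
  classical
  have hr : Module.finrank ℚ F = Module.finrank ℚ K * r := by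
    obtain ⟨f, -, hf⟩ := h 1
    rw [← card_emb ιF, ← card_emb ιK]
    have : Fintype (K →ₐ[ℚ] M) := Fintype.ofFinite _
    have h1 : Nat.card (F →ₐ[ℚ] M) = ∑ x : K →ₐ[ℚ] M, Nat.card {y // f y = x} := by
      rw [← Nat.card_sigma]
      exact (Nat.card_congr (Equiv.sigmaFiberEquiv f)).symm
    rw [h1, Finset.sum_congr rfl fun x _ => hf x, Finset.sum_const, Finset.card_univ, smul_eq_mul,
      Nat.card_eq_fintype_card]
  refine ⟨⟨r, hr⟩, fun p hp hU1 hU2 => ?_⟩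
  have : Fact p.Prime := ⟨hp⟩
  obtain ⟨φ⟩ := exists_phi M p
  obtain ⟨w, hw⟩ := exists_frob φ
  obtain ⟨hF1, hF2⟩ := dict ιF hU1 φ w hw
  obtain ⟨hK1, hK2⟩ := dict ιK hU2 φ w hw
  obtain ⟨f, e, he, hs⟩ := toPrimes hF1 hK1 (h w)
  refine ⟨f, e, fun b => ⟨(he b).1, ?_⟩, fun Q => ?_⟩
  · rw [← hF2, ← hK2]
    exact (he b).2
  · rw [hs, hr, Nat.mul_div_cancel_left _ Module.finrank_pos]

/-- the subgroup of the automorphisms which fix an embedding -/
def fixS (ι : F →ₐ[ℚ] M) : Subgroup Gal(M/ℚ) where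
  carrier := {g | act g ι = ι}
  mul_mem' := by
    intro a b ha hb
    simp only [Set.mem_ofPred_eq] at *
    rw [act_mul, Equiv.Perm.mul_apply, hb, ha]
  one_mem' := by
    simp only [Set.mem_ofPred_eq]
    rw [act_one, Equiv.Perm.one_apply]
  inv_mem' := by
    intro a ha
    simp only [Set.mem_ofPred_eq] at *
    conv_lhs => rw [← ha]
    rw [← Equiv.Perm.mul_apply, ← act_mul, inv_mul_cancel, act_one, Equiv.Perm.one_apply]

lemma mem_fixS (ι : F →ₐ[ℚ] M) (g : Gal(M/ℚ)) : g ∈ fixS ι ↔ act g ι = ι := Iff.rfl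

theorem trans_emb (ι σ : F →ₐ[ℚ] M) : ∃ g : Gal(M/ℚ), act g ι = σ := by
  let _ : Algebra F M := (ι : F →+* M).toAlgebra
  have : IsScalarTower ℚ F M := IsScalarTower.of_algebraMap_eq fun q => (ι.commutes q).symm
  let g : M →ₐ[ℚ] M := σ.liftNormal M
  have hg : ∀ x : F, g (ι x) = σ x := fun x => by
    have := σ.liftNormal_commutes M x
    exact this
  have hbij : Function.Bijective g := Algebra.IsAlgebraic.algHom_bijective g
  refine ⟨AlgEquiv.ofBijective g hbij, ?_⟩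
  ext x
  exact hg x

lemma card_act (ι σ : F →ₐ[ℚ] M) :
    Nat.card {g : Gal(M/ℚ) // act g ι = σ} = Nat.card (fixS ι) := by
  obtain ⟨g0, hg0⟩ := trans_emb ι σ
  refine (Nat.card_congr ((Equiv.mulLeft g0).subtypeEquiv fun g => ?_)).symm
  rw [mem_fixS, Equiv.coe_mulLeft, act_mul, Equiv.Perm.mul_apply, ← hg0]
  exact ((act g0).injective.eq_iff).symm

/-- the sum over the fibres of the orbit map -/
lemma card_orbit_map {X : Type} (ι : F →ₐ[ℚ] M) (h : (F →ₐ[ℚ] M) → X) (x : X) :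
    Nat.card {g : Gal(M/ℚ) // h (act g ι) = x} = Nat.card {σ // h σ = x} * Nat.card (fixS ι) := by
  classical
  have : Fintype {σ // h σ = x} := Fintype.ofFinite _
  have h1 : Nat.card {g : Gal(M/ℚ) // h (act g ι) = x} =
      ∑ σ : {σ // h σ = x}, Nat.card {g : Gal(M/ℚ) // act g ι = σ} := by
    rw [← Nat.card_sigma]
    refine Nat.card_congr ⟨fun g => ⟨⟨act g.1 ι, g.2⟩, ⟨g.1, rfl⟩⟩,
      fun z => ⟨z.2.1, by rw [z.2.2]; exact z.1.2⟩, fun g => rfl, ?_⟩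
    rintro ⟨⟨σ, hσ⟩, ⟨g, hg⟩⟩
    simp only at hg
    subst hg
    rfl
  rw [h1, Finset.sum_congr rfl fun σ _ => card_act ι σ.1, Finset.sum_const, Finset.card_univ,
    smul_eq_mul, ← Nat.card_eq_fintype_card]

end

section tower

variable {Ω M : Type} [Field Ω] [NumberField Ω] [IsGalois ℚ Ω] [Field M] [NumberField M]
  [IsGalois ℚ M]
  {F K : Type} [Field F] [NumberField F] [Field K] [NumberField K]

/-- The action on the embeddings. -/
@[reducible] def embAction (Ω K : Type) [Field Ω] [NumberField Ω] [Field K] [NumberField K] :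
    MulAction Gal(Ω/ℚ) (K →ₐ[ℚ] Ω) where
  smul g τ := act g τ
  one_smul τ := by
    show act 1 τ = τ
    rw [act_one, Equiv.Perm.one_apply]
  mul_smul g h τ := by
    show act (g * h) τ = act g (act h τ)
    rw [act_mul, Equiv.Perm.mul_apply]

/-- enlarging the target -/
def up (i : Ω →ₐ[ℚ] M) (τ : K →ₐ[ℚ] Ω) : K →ₐ[ℚ] M := i.comp τ

lemma up_bij (i : Ω →ₐ[ℚ] M) (ιK : K →ₐ[ℚ] Ω) :
    Function.Bijective (up i : (K →ₐ[ℚ] Ω) → (K →ₐ[ℚ] M)) := by
  have h1 : Function.Injective (up i : (K →ₐ[ℚ] Ω) → (K →ₐ[ℚ] M)) := by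
    intro τ τ' h
    ext x
    have := DFunLike.congr_fun h x
    exact i.toRingHom.injective this
  refine h1.bijective_of_nat_card_le ?_
  rw [card_emb ιK, card_emb (up i ιK)]

lemma up_act (i : Ω →ₐ[ℚ] M) (res : Gal(M/ℚ) →* Gal(Ω/ℚ))
    (hres : ∀ g x, i (res g x) = g (i x)) (g : Gal(M/ℚ)) (τ : K →ₐ[ℚ] Ω) :
    up i (act (res g) τ) = act g (up i τ) := by
  ext x
  exact hres g (τ x)

theorem toGood (i : Ω →ₐ[ℚ] M) (res : Gal(M/ℚ) →* Gal(Ω/ℚ))
    (hres : ∀ g x, i (res g x) = g (i x)) (ιK : K →ₐ[ℚ] Ω) (ιF : F →ₐ[ℚ] M) (r : ℕ)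
    (γ : Gal(M/ℚ))
    (h : EqMap (act γ : Equiv.Perm (F →ₐ[ℚ] M)) (act γ : Equiv.Perm (K →ₐ[ℚ] M)) r) :
    letI := embAction Ω K
    Good (X := K →ₐ[ℚ] Ω) res (fixS ιF) γ (r * Nat.card (fixS ιF)) := by
  let _ := embAction Ω K
  obtain ⟨h, he, hr⟩ := h
  have hb := up_bij (K := K) i ιK
  let u : (K →ₐ[ℚ] Ω) ≃ (K →ₐ[ℚ] M) := Equiv.ofBijective _ hb
  have hu : ∀ g τ, u (act (res g) τ) = act g (u τ) := fun g τ => up_act i res hres g τ
  refine ⟨fun g => u.symm (h (act g ιF)), ?_, ?_, ?_⟩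
  · intro g v hv
    simp only
    rw [act_mul, Equiv.Perm.mul_apply, (mem_fixS ιF v).mp hv]
  · intro g
    simp only
    rw [act_mul, Equiv.Perm.mul_apply, he]
    show _ = act (res γ) (u.symm _)
    rw [Equiv.symm_apply_eq, hu, Equiv.apply_symm_apply]
  · intro x
    have h1 := card_orbit_map ιF (fun σ => u.symm (h σ)) x
    rw [h1]
    congr 1
    rw [← hr (u x)]
    refine Nat.card_congr (Equiv.subtypeEquivRight fun σ => ?_)
    rw [Equiv.symm_apply_eq]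

theorem ofGood (i : Ω →ₐ[ℚ] M) (res : Gal(M/ℚ) →* Gal(Ω/ℚ))
    (hres : ∀ g x, i (res g x) = g (i x)) (ιK : K →ₐ[ℚ] Ω) (ιF : F →ₐ[ℚ] M) (r : ℕ)
    (w : Gal(M/ℚ))
    (h : letI := embAction Ω K
      Good (X := K →ₐ[ℚ] Ω) res (fixS ιF) w (r * Nat.card (fixS ιF))) :
    EqMap (act w : Equiv.Perm (F →ₐ[ℚ] M)) (act w : Equiv.Perm (K →ₐ[ℚ] M)) r := by
  let _ := embAction Ω K
  obtain ⟨H, hU, hw, hc⟩ := h
  have hb := up_bij (K := K) i ιK
  let u : (K →ₐ[ℚ] Ω) ≃ (K →ₐ[ℚ] M) := Equiv.ofBijective _ hb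
  have hu : ∀ g τ, u (act (res g) τ) = act g (u τ) := fun g τ => up_act i res hres g τ
  choose g hg using fun σ : F →ₐ[ℚ] M => trans_emb ιF σ
  have hH : ∀ g', H (g (act g' ιF)) = H g' := by
    intro g'
    have h1 : (g')⁻¹ * g (act g' ιF) ∈ fixS ιF := by
      rw [mem_fixS, act_mul, Equiv.Perm.mul_apply, hg, ← Equiv.Perm.mul_apply, ← act_mul,
        inv_mul_cancel, act_one, Equiv.Perm.one_apply]
    have h2 := hU g' _ h1
    rwa [mul_inv_cancel_left] at h2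
  refine ⟨fun σ => u (H (g σ)), ?_, ?_⟩
  · intro σ
    have h1 : act w σ = act (w * g σ) ιF := by
      rw [act_mul, Equiv.Perm.mul_apply, hg]
    have h2 : H (g (act w σ)) = act (res w) (H (g σ)) := by
      conv_lhs => rw [h1]
      rw [hH, hw]
      rfl
    simp only
    rw [h2, hu]
  · intro x
    have h1 := card_orbit_map ιF (fun σ => u (H (g σ))) x
    have h2 : Nat.card {g' : Gal(M/ℚ) // u (H (g (act g' ιF))) = x} = r * Nat.card (fixS ιF) := by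
      rw [← hc (u.symm x)]
      refine Nat.card_congr (Equiv.subtypeEquivRight fun g' => ?_)
      rw [hH, Equiv.eq_symm_apply]
    rw [h2] at h1
    exact (Nat.eq_of_mul_eq_mul_right Nat.card_pos h1).symm

end tower

/-- Transfer of the local condition. -/
theorem transfer {Ω M M' : Type} [Field Ω] [NumberField Ω] [IsGalois ℚ Ω] [Field M] [NumberField M]
    [IsGalois ℚ M] [Field M'] [NumberField M'] [IsGalois ℚ M']
    {F F' K : Type} [Field F] [NumberField F] [Field K] [NumberField K] [Field F'] [NumberField F']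
    (i : Ω →ₐ[ℚ] M) (res : Gal(M/ℚ) →* Gal(Ω/ℚ)) (hres : ∀ g x, i (res g x) = g (i x))
    (i' : Ω →ₐ[ℚ] M') (res' : Gal(M'/ℚ) →* Gal(Ω/ℚ)) (hres' : ∀ g x, i' (res' g x) = g (i' x))
    (j : Gal(M/ℚ) →* Gal(M'/ℚ)) (hj : Function.Injective j) (hjr : ∀ g, res' (j g) = res g)
    (ιK : K →ₐ[ℚ] Ω) (ιF : F →ₐ[ℚ] M) (ιF' : F' →ₐ[ℚ] M')
    (hU : fixS ιF' = (fixS ιF).map j) (h : LocallySub K F) : LocallySub K F' := by
  have hcard : Nat.card (fixS ιF') = Nat.card (fixS ιF) := by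
    rw [hU]
    exact (Nat.card_congr ((fixS ιF).equivMapOfInjective j hj).toEquiv).symm
  obtain ⟨d, hd⟩ := Subgroup.card_dvd_of_injective j hj
  refine frob_dir ιF' (up i' ιK) (d * (Module.finrank ℚ F / Module.finrank ℚ K)) fun w => ?_
  apply ofGood i' res' hres' ιK ιF'
  rw [hU] at hcard ⊢
  have h1 := fun γ => toGood i res hres ιK ιF _ γ (cheb_dir ιF (up i ιK) h γ)
  let _ := embAction Ω K
  refine induct res res' j hj hjr (fixS ιF) _ _ ?_ h1 w
  rw [hcard, hd]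
  ring

end Q248.FS
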