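import Pool.Agent.Q248.FS.Defs
import Pool.Agent.Q248.FS.Grp
import Pool.Agent.Helper259.Selmer.Gal

/-!
# An extension with a large symmetric group
-/

set_option autoImplicit false
set_option linter.unusedSectionVars false

namespace Q248.FS

open NumberField Polynomial IntermediateField

/-- Restriction of automorphisms. -/
theorem exists_res (A B : IntermediateField ℚ Qb) (h : A ≤ B) [Normal ℚ A] [Normal ℚ B] :
    ∃ res : Gal(B/ℚ) →* Gal(A/ℚ), Function.Surjective res ∧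
      ∀ g (x : A), ((res g x : A) : Qb) = (g (inclusion h x) : Qb) := by
  let _ : Algebra A B := (inclusion h).toAlgebra
  have : IsScalarTower ℚ A B := IsScalarTower.of_algebraMap_eq fun q => ((inclusion h).commutes q).symm
  refine ⟨AlgEquiv.restrictNormalHom A, AlgEquiv.restrictNormalHom_surjective B, fun g x => ?_⟩
  have h1 := AlgEquiv.restrictNormal_commutes g A x
  have h2 : ∀ y : A, ((algebraMap A B y : B) : Qb) = (y : Qb) := fun y => rfl
  have h3 := congrArg (fun z : B => (z : Qb)) h1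
  rw [h2] at h3
  exact h3

/-- the elements fixed by an automorphism of a subfield -/
def fixIn (B : IntermediateField ℚ Qb) (w : Gal(B/ℚ)) : IntermediateField ℚ Qb where
  carrier := {y | ∃ h : y ∈ B, w ⟨y, h⟩ = ⟨y, h⟩}
  mul_mem' := by
    rintro a b ⟨ha, ha'⟩ ⟨hb, hb'⟩
    refine ⟨mul_mem ha hb, ?_⟩
    have : (⟨a * b, mul_mem ha hb⟩ : B) = ⟨a, ha⟩ * ⟨b, hb⟩ := rfl
    rw [this, map_mul, ha', hb']
  add_mem' := by
    rintro a b ⟨ha, ha'⟩ ⟨hb, hb'⟩
    refine ⟨add_mem ha hb, ?_⟩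
    have : (⟨a + b, add_mem ha hb⟩ : B) = ⟨a, ha⟩ + ⟨b, hb⟩ := rfl
    rw [this, map_add, ha', hb']
  algebraMap_mem' := by
    intro r
    refine ⟨B.algebraMap_mem r, ?_⟩
    have : (⟨algebraMap ℚ Qb r, B.algebraMap_mem r⟩ : B) = algebraMap ℚ B r := by
      apply Subtype.ext
      simp
    rw [this, AlgEquiv.commutes]
  inv_mem' := by
    rintro a ⟨ha, ha'⟩
    refine ⟨inv_mem ha, ?_⟩
    have : (⟨a⁻¹, inv_mem ha⟩ : B) = (⟨a, ha⟩ : B)⁻¹ := rfl
    rw [this, map_inv₀, ha']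

theorem eq_one_of_sup (R A B : IntermediateField ℚ Qb) (hRB : R ≤ B) (hAB : A ≤ B) (hB : B ≤ R ⊔ A)
    (w : Gal(B/ℚ))
    (h1 : ∀ x : R, (w (inclusion hRB x) : Qb) = (x : Qb))
    (h2 : ∀ x : A, (w (inclusion hAB x) : Qb) = (x : Qb)) : w = 1 := by
  have hR : R ≤ fixIn B w := fun x hx => ⟨hRB hx, Subtype.ext (h1 ⟨x, hx⟩)⟩
  have hA : A ≤ fixIn B w := fun x hx => ⟨hAB hx, Subtype.ext (h2 ⟨x, hx⟩)⟩
  have hE : B ≤ fixIn B w := hB.trans (sup_le hR hA)
  ext y
  obtain ⟨hb, hy⟩ := hE y.2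
  exact congrArg _ hy

lemma cardT (L : Type) [Field L] [NumberField L] (n : ℕ) (hn : n.Prime)
    (hs : IsSplittingField ℚ L (X ^ n - X - 1 : ℚ[X])) :
    Fintype.card ((Pool.Agent.Helper259.Selmer.F n).rootSet (𝓞 L)) = n := by
  apply Pool.Agent.Helper259.Selmer.card_rootSet_int hn.two_le
  have hF : (Pool.Agent.Helper259.Selmer.F n).map (algebraMap ℤ L) =
      (X ^ n - X - 1 : ℚ[X]).map (algebraMap ℚ L) := by
    rw [Pool.Agent.Helper259.Selmer.F_map]; simp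
  rw [hF]
  exact hs.splits

theorem exists_big (Ω M : IntermediateField ℚ Qb) [FiniteDimensional ℚ Ω] [FiniteDimensional ℚ M]
    [IsGalois ℚ Ω] [IsGalois ℚ M] (hΩM : Ω ≤ M) :
    ∃ (M' : IntermediateField ℚ Qb) (_ : FiniteDimensional ℚ M') (_ : IsGalois ℚ M') (hΩ : Ω ≤ M'),
      (∃ j : Gal(M/ℚ) →* Gal(M'/ℚ), Function.Injective j ∧
        ∀ γ (x : Ω), ((j γ (inclusion hΩ x) : M') : Qb) = (γ (inclusion hΩM x) : Qb)) ∧
      ∃ s : Gal(Ω/ℚ) →* Gal(M'/ℚ), ∀ g (x : Ω), ((s g (inclusion hΩ x) : M') : Qb) = (g x : Qb) := by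
  classical
  obtain ⟨n, hn, hnp⟩ := Nat.exists_infinite_primes (2 * Nat.card Gal(M/ℚ) + 3 + Nat.card Gal(Ω/ℚ))
  let f : ℚ[X] := X ^ n - X - 1
  have hf : (f.map (algebraMap ℚ Qb)).Splits := IsAlgClosed.splits _
  let R : IntermediateField ℚ Qb := IntermediateField.adjoin ℚ (f.rootSet Qb)
  have hR : IsSplittingField ℚ R f := IntermediateField.adjoin_rootSet_isSplittingField hf
  have hRf : FiniteDimensional ℚ R := IsSplittingField.finiteDimensional R f
  have hΩn : Normal ℚ Ω := inferInstance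
  have hRn : Normal ℚ R := Normal.of_isSplittingField f
  have : IsGalois ℚ R := {}
  have : NumberField R := {}
  have hbij := Pool.Agent.Helper259.Selmer.bijective (L := R) hnp hR
  let T : Type := (Pool.Agent.Helper259.Selmer.F n).rootSet (𝓞 R)
  have hcardT : Fintype.card T = n := cardT R n hnp hR
  let M' : IntermediateField ℚ Qb := R ⊔ Ω
  have hM'n : Normal ℚ M' := @IntermediateField.normal_sup ℚ Qb _ _ _ R Ω hRn hΩn
  have hM'f : FiniteDimensional ℚ M' := @IntermediateField.finiteDimensional_sup ℚ Qb _ _ _ R Ω hRf ‹_›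
  have hM'g : IsGalois ℚ M' := {}
  obtain ⟨resR, hresR, hR1⟩ := exists_res R M' le_sup_left
  obtain ⟨resΩ, hresΩ, hΩ1⟩ := exists_res Ω M' le_sup_right
  obtain ⟨resM, -, hM1⟩ := exists_res Ω M hΩM
  let θ : Gal(M'/ℚ) →* Equiv.Perm T := (MulAction.toPermHom Gal(R/ℚ) T).comp resR
  have hinj : ∀ w, θ w = 1 → resΩ w = 1 → w = 1 := by
    intro w h1 h2
    have h3 : resR w = 1 := hbij.1 (by rw [map_one]; exact h1)
    refine eq_one_of_sup R Ω M' le_sup_left le_sup_right le_rfl w (fun x => ?_) (fun x => ?_)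
    · have h4 := hR1 w x
      rw [h3] at h4
      exact h4.symm
    · have h4 := hΩ1 w x
      rw [h2] at h4
      exact h4.symm
  obtain ⟨⟨j, hj, hj2⟩, ⟨s, hs⟩⟩ := grp θ resΩ (hbij.2.comp hresR) hresΩ hinj
    (by rw [hcardT]; exact hnp) (by rw [hcardT]; omega) (by rw [hcardT]; omega) resM
  refine ⟨M', hM'f, hM'g, le_sup_right, ⟨j, hj, fun γ x => ?_⟩, ⟨s, fun g x => ?_⟩⟩
  · rw [← hΩ1, hj2, hM1]
  · rw [← hΩ1, hs]

end Q248.FS
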