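import Pool.Agent.Q248.FS.Local
import Pool.Agent.Q248.FS.Sel

/-!
# Every fake subfield is a fake subfield with a split extension
-/

set_option autoImplicit false
set_option linter.unusedSectionVars false

namespace Q248.FS

open NumberField IntermediateField

lemma gal1 {M : Type} [Field M] [NumberField M] [IsGalois ℚ M] (H : Subgroup Gal(M/ℚ)) (w : Gal(M/ℚ))
    (h : ∀ x : M, (∀ u ∈ H, u x = x) → w x = x) : w ∈ H := by
  rw [← IntermediateField.fixingSubgroup_fixedField H, IntermediateField.mem_fixingSubgroup_iff]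
  intro x hx
  exact h x fun u hu => (IntermediateField.mem_fixedField_iff H x).mp hx u hu

lemma gal2 {M F : Type} [Field M] [NumberField M] [IsGalois ℚ M] [Field F] [NumberField F]
    (ι : F →ₐ[ℚ] M) (x : M) (h : ∀ g ∈ fixS ι, g x = x) : ∃ y : F, ι y = x := by
  have h1 : x ∈ IntermediateField.fixedField ι.fieldRange.fixingSubgroup := by
    rw [IntermediateField.mem_fixedField_iff]
    intro g hg
    apply h
    rw [mem_fixS]
    ext y
    rw [IntermediateField.mem_fixingSubgroup_iff] at hg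
    exact hg (ι y) ⟨y, rfl⟩
  rw [IsGalois.fixedField_fixingSubgroup] at h1
  exact h1

lemma le_Omega (K : IntermediateField ℚ Qb) : K ≤ Omega K := IntermediateField.le_normalClosure K

theorem normalQb : Normal ℚ Qb := by
  have e : (DivisionRing.toRatAlgebra : Algebra ℚ Qb) = AlgebraicClosure.instAlgebra ℚ :=
    Subsingleton.elim _ _
  rw [e]
  exact @IsAlgClosure.normal ℚ (AlgebraicClosure ℚ) _ _ (AlgebraicClosure.instAlgebra ℚ)
    inferInstance

attribute [local instance] normalQb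

instance (K : IntermediateField ℚ Qb) : Normal ℚ (Omega K) :=
  normalClosure.normal ℚ K Qb

lemma fixIn_le (B : IntermediateField ℚ Qb) (w : Gal(B/ℚ)) : fixIn B w ≤ B := fun _ hx => hx.1

lemma mem_fixIn (B : IntermediateField ℚ Qb) (w : Gal(B/ℚ)) (y : B) :
    (y : Qb) ∈ fixIn B w ↔ w y = y :=
  ⟨fun h => h.2, fun h => ⟨y.2, h⟩⟩

theorem main (K F : IntermediateField ℚ Qb) [NumberField K] [NumberField F]
    (h : FakeSubfield K F) :
    ∃ (F' : IntermediateField ℚ Qb) (_ : NumberField F'), FakeSubfield K F' ∧ Splits K F' := by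
  obtain ⟨hloc, hfake⟩ := h
  set Ω : IntermediateField ℚ Qb := Omega K with hΩdef
  have hKΩ : K ≤ Ω := le_Omega K
  have hΩn : Normal ℚ Ω := inferInstance
  have hΩf : FiniteDimensional ℚ Ω := normalClosure.is_finiteDimensional ℚ K Qb
  have hΩg : IsGalois ℚ Ω := {}
  have hFn : Normal ℚ (Omega F) := inferInstance
  have hFf : FiniteDimensional ℚ (Omega F) :=
    normalClosure.is_finiteDimensional ℚ F Qb
  let M : IntermediateField ℚ Qb := Ω ⊔ Omega F
  have hMn : Normal ℚ M := @IntermediateField.normal_sup ℚ Qb _ _ _ Ω (Omega F) hΩn hFn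
  have hMf : FiniteDimensional ℚ M :=
    @IntermediateField.finiteDimensional_sup ℚ Qb _ _ _ Ω (Omega F) hΩf hFf
  have hMg : IsGalois ℚ M := {}
  have hΩM : Ω ≤ M := le_sup_left
  have hFM : F ≤ M := (le_Omega F).trans le_sup_right
  obtain ⟨M', hM'f, hM'g, hΩM', ⟨j, hj, hj1⟩, s, hs⟩ := exists_big Ω M hΩM
  have : NumberField Ω := {}
  have : NumberField M := {}
  have : NumberField M' := {}
  obtain ⟨res, -, hres⟩ := exists_res Ω M hΩM
  obtain ⟨res', -, hres'⟩ := exists_res Ω M' hΩM'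
  let i : Ω →ₐ[ℚ] M := (inclusion hΩM : Ω →ₐ[ℚ] M)
  let i' : Ω →ₐ[ℚ] M' := (inclusion hΩM' : Ω →ₐ[ℚ] M')
  let ιK : K →ₐ[ℚ] Ω := (inclusion hKΩ : K →ₐ[ℚ] Ω)
  let ιF : F →ₐ[ℚ] M := (inclusion hFM : F →ₐ[ℚ] M)
  let F' : IntermediateField ℚ Qb := ⨅ u : fixS ιF, fixIn M' (j u)
  have hF'M' : F' ≤ M' := (iInf_le _ (1 : fixS ιF)).trans (fixIn_le _ _)
  have hmem : ∀ y : M', (y : Qb) ∈ F' ↔ ∀ u ∈ fixS ιF, j u y = y := by
    intro y
    constructor
    · intro hy u hu
      rw [← mem_fixIn]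
      exact (iInf_le (fun u : fixS ιF => fixIn M' (j u)) ⟨u, hu⟩) hy
    · intro hy
      have : (y : Qb) ∈ ⨅ u : fixS ιF, fixIn M' (j u) := by
        rw [← SetLike.mem_coe, IntermediateField.coe_iInf, Set.mem_iInter]
        intro u
        rw [SetLike.mem_coe, mem_fixIn]
        exact hy u u.2
      exact this
  have hF'f : FiniteDimensional ℚ F' := by
    let f : F' →ₐ[ℚ] M' := (inclusion hF'M' : F' →ₐ[ℚ] M')
    exact FiniteDimensional.of_injective f.toLinearMap f.toRingHom.injective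
  have : NumberField F' := {}
  let ιF' : F' →ₐ[ℚ] M' := (inclusion hF'M' : F' →ₐ[ℚ] M')
  have hU : fixS ιF' = (fixS ιF).map j := by
    ext w
    constructor
    · intro hw
      apply gal1
      intro x hx
      have h1 : (x : Qb) ∈ F' := by
        rw [hmem]
        intro u hu
        exact hx _ ⟨u, hu, rfl⟩
      have h2 := DFunLike.congr_fun ((mem_fixS ιF' w).mp hw) ⟨x, h1⟩
      exact h2
    · rintro ⟨u, hu, rfl⟩
      rw [mem_fixS]
      ext y
      have h1 := (hmem (ιF' y)).mp y.2 u hu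
      exact congrArg _ h1
  refine ⟨F', inferInstance, ⟨?_, ?_⟩, ?_⟩
  · -- the local condition
    refine transfer i res (fun g x => Subtype.ext (hres g x)) i' res'
      (fun g x => Subtype.ext (hres' g x)) j hj ?_ ιK ιF ιF' hU hloc
    intro g
    ext x
    rw [hres', hj1, hres]
  · -- no conjugate contains `K`
    intro σ hσ
    apply hfake σ
    intro x hx
    obtain ⟨y, hy, hyx⟩ := hσ hx
    refine ⟨y, ?_, hyx⟩
    have hyx' : y = σ⁻¹ x := by
      have h1 : σ y = x := hyx
      rw [← h1, ← AlgEquiv.mul_apply, inv_mul_cancel, AlgEquiv.one_apply]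
    have hyΩ : y ∈ Ω := by
      have h1 := (IntermediateField.normal_iff_forall_map_le'.mp hΩn) σ⁻¹
      apply h1
      exact ⟨x, hKΩ hx, hyx'.symm⟩
    have h1 : ∀ u ∈ fixS ιF, u (i ⟨y, hyΩ⟩) = i ⟨y, hyΩ⟩ := by
      intro u hu
      have h2 := (hmem (i' ⟨y, hyΩ⟩)).mp hy u hu
      apply Subtype.ext
      have h3 := hj1 u ⟨y, hyΩ⟩
      have h4 : ((j u (i' ⟨y, hyΩ⟩) : M') : Qb) = y := congrArg Subtype.val h2
      exact h3.symm.trans h4
    obtain ⟨z, hz⟩ := gal2 ιF (i ⟨y, hyΩ⟩) h1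
    have h2 : (z : Qb) = y := congrArg Subtype.val hz
    rw [← h2]
    exact z.2
  · -- the splitting
    have hF'n : Normal ℚ (Omega F') := inferInstance
    have hM1n : Normal ℚ (MF K F') :=
      @IntermediateField.normal_sup ℚ Qb _ _ _ (Omega K) (Omega F') hΩn hF'n
    have hM1M' : MF K F' ≤ M' := by
      refine sup_le hΩM' ?_
      have hM'n : Normal ℚ M' := hM'g.to_normal
      exact (@IntermediateField.normalClosure_le_iff_of_normal ℚ Qb _ _ _ _ F' M' hM'n).mpr hF'M'
    obtain ⟨res1, -, hres1⟩ := exists_res (MF K F') M' hM1M'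
    refine ⟨(res1.comp s).range, fun g => ⟨⟨res1 (s g), ⟨g, rfl⟩⟩, ?_, ?_⟩⟩
    · intro x
      exact Subtype.ext ((hres1 (s g) (inclusion (le_sup_left : Omega K ≤ MF K F') x)).trans (hs g x))
    · rintro ⟨_, ⟨g', rfl⟩⟩ hh
      have h1 : g' = g := by
        ext x
        have h2 := congrArg Subtype.val (hh x)
        have h3 : ((res1.comp s g' (inclusion (le_sup_left : Omega K ≤ MF K F') x) : MF K F') : Qb)
            = (g' x : Qb) :=
          (hres1 (s g') (inclusion (le_sup_left : Omega K ≤ MF K F') x)).trans (hs g' x)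
        exact h3.symm.trans h2
      subst h1
      rfl

end Q248.FS
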